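import Pool.Agent.AT12.Stmts3

/-!
# Squad AT12, row CNB: the count of the fixed characters
-/

open scoped BigOperators

noncomputable section

namespace Pool.Agent.PP.T12.H91

theorem pairs {m : ℕ} (D : Fin m → Fin m → ℝ) (R : Fin m → Fin m → Prop) (P : ℝ) (hP : 0 ≤ P)
    (hD : ∀ s s', 0 ≤ D s s') (hR : ∀ s s', R s s' ∨ P ≤ D s s')
    (hs : ∀ s s', R s s' → R s' s) (ht : ∀ s t u, R s t → R t u → R s u) (hr : ∀ s, R s s)
    (s0 s1 : Fin m) (h01 : ¬ R s0 s1) : 2 * ((m : ℝ) - 1) * P ≤ ∑ s, ∑ s', D s s' := by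
  classical
  set K : Finset (Fin m) := Finset.univ.filter (fun s => R s0 s) with hK
  have hmem : ∀ s, s ∈ K ↔ R s0 s := fun s => by simp [hK]
  have h1 : ∀ s ∈ K, (Kᶜ.card : ℝ) * P ≤ ∑ s', D s s' := by
    intro s hs1
    calc (Kᶜ.card : ℝ) * P = ∑ _s' ∈ Kᶜ, P := by rw [Finset.sum_const, nsmul_eq_mul]
      _ ≤ ∑ s' ∈ Kᶜ, D s s' := by
          apply Finset.sum_le_sum
          intro s' hs'
          rcases hR s s' with h | h
          · exact absurd ((hmem s').2 (ht _ _ _ ((hmem s).1 hs1) h)) (Finset.mem_compl.1 hs')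
          · exact h
      _ ≤ ∑ s', D s s' :=
          Finset.sum_le_sum_of_subset_of_nonneg (Finset.subset_univ _) (fun _ _ _ => hD _ _)
  have h2 : ∀ s ∈ Kᶜ, (K.card : ℝ) * P ≤ ∑ s', D s s' := by
    intro s hs1
    calc (K.card : ℝ) * P = ∑ _s' ∈ K, P := by rw [Finset.sum_const, nsmul_eq_mul]
      _ ≤ ∑ s' ∈ K, D s s' := by
          apply Finset.sum_le_sum
          intro s' hs'
          rcases hR s s' with h | h
          · exact absurd ((hmem s).2 (ht _ _ _ ((hmem s').1 hs') (hs _ _ h)))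
              (Finset.mem_compl.1 hs1)
          · exact h
      _ ≤ ∑ s', D s s' :=
          Finset.sum_le_sum_of_subset_of_nonneg (Finset.subset_univ _) (fun _ _ _ => hD _ _)
  have hc : K.card + Kᶜ.card = m := by
    rw [Finset.card_add_card_compl, Fintype.card_fin]
  have hc1 : 1 ≤ K.card := Finset.card_pos.2 ⟨s0, (hmem s0).2 (hr s0)⟩
  have hc2 : 1 ≤ Kᶜ.card :=
    Finset.card_pos.2 ⟨s1, Finset.mem_compl.2 (fun h => h01 ((hmem s1).1 h))⟩
  have hc' : (K.card : ℝ) + Kᶜ.card = m := by exact_mod_cast hc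
  have hc1' : (1 : ℝ) ≤ K.card := by exact_mod_cast hc1
  have hc2' : (1 : ℝ) ≤ Kᶜ.card := by exact_mod_cast hc2
  rw [← Finset.sum_add_sum_compl K]
  have e1 : (K.card : ℝ) * (Kᶜ.card * P) ≤ ∑ s ∈ K, ∑ s', D s s' := by
    rw [← nsmul_eq_mul, ← Finset.sum_const]
    exact Finset.sum_le_sum h1
  have e2 : (Kᶜ.card : ℝ) * (K.card * P) ≤ ∑ s ∈ Kᶜ, ∑ s', D s s' := by
    rw [← nsmul_eq_mul, ← Finset.sum_const]
    exact Finset.sum_le_sum h2
  refine le_trans ?_ (add_le_add e1 e2)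
  have e3 : 0 ≤ ((K.card : ℝ) - 1) * ((Kᶜ.card : ℝ) - 1) * P := by
    apply mul_nonneg (mul_nonneg _ _) hP <;> linarith
  rw [← hc']
  nlinarith

theorem cnb : CnbStmt := by
  classical
  intro ℓ m J ρ _ _ X a v hodd hl3 hm hdvd hJ h1 h2 h3 h4 h5 h6 h7 h8
  set P : ℝ := (Fintype.card J : ℝ) with hPdef
  have hP : 0 < P := by rw [hPdef]; exact_mod_cast hJ
  have hl : (3 : ℝ) ≤ ℓ := by exact_mod_cast hl3
  have hm' : (2 : ℝ) ≤ m := by exact_mod_cast hm
  set Z : Finset ρ := Finset.univ.filter (fun r => ∀ j, a j r = 0) with hZ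
  set Ac : Finset ρ := Finset.univ.filter
    (fun r => (∃ j, a j r ≠ 0) ∧ ∀ j s s', X j r s = X j r s') with hAc
  set An : Finset ρ := Finset.univ.filter
    (fun r => (∃ j, a j r ≠ 0) ∧ ¬ ∀ j s s', X j r s = X j r s') with hAn
  have hcard : Fintype.card ρ ≤ Z.card + Ac.card + An.card := by
    have hu : (Finset.univ : Finset ρ) ⊆ (Z ∪ Ac) ∪ An := by
      intro r _
      simp only [hZ, hAc, hAn, Finset.mem_union, Finset.mem_filter, Finset.mem_univ, true_and]
      by_cases hz : ∀ j, a j r = 0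
      · exact Or.inl (Or.inl hz)
      · have hz' : ∃ j, a j r ≠ 0 := by
          by_contra hcon
          apply hz
          intro j
          by_contra hj
          exact hcon ⟨j, hj⟩
        by_cases hx : ∀ j s s', X j r s = X j r s'
        · exact Or.inl (Or.inr ⟨hz', hx⟩)
        · exact Or.inr ⟨hz', hx⟩
    calc Fintype.card ρ = (Finset.univ : Finset ρ).card := rfl
      _ ≤ ((Z ∪ Ac) ∪ An).card := Finset.card_le_card hu
      _ ≤ (Z ∪ Ac).card + An.card := Finset.card_union_le _ _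
      _ ≤ Z.card + Ac.card + An.card := Nat.add_le_add_right (Finset.card_union_le _ _) _
  -- (1)
  have s1 : (An.card : ℝ) ≤ m * ℓ := by
    have g1 : ∀ r ∈ An, 2 * ((m : ℝ) - 1) * P ≤
        ∑ s, ∑ s', ∑ j, Complex.normSq (X j r s - X j r s') := by
      intro r hr
      have hr' := (Finset.mem_filter.1 hr).2.2
      have hex : ∃ s0 s1, ¬ ∀ j, X j r s0 = X j r s1 := by
        by_contra hcon
        apply hr'
        intro j s s'
        by_contra hne
        exact hcon ⟨s, s', fun h => hne (h j)⟩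
      obtain ⟨s0, s1, h01⟩ := hex
      refine pairs (fun s s' => ∑ j, Complex.normSq (X j r s - X j r s'))
        (fun s s' => ∀ j, X j r s = X j r s') P hP.le
        (fun s s' => Finset.sum_nonneg fun j _ => Complex.normSq_nonneg _)
        (fun s s' => h5 r s s') (fun s s' h j => (h j).symm)
        (fun s t u h h' j => (h j).trans (h' j)) (fun s j => rfl) s0 s1 h01
    have g2 : (An.card : ℝ) * (2 * ((m : ℝ) - 1) * P) ≤
        ∑ r, ∑ s, ∑ s', ∑ j, Complex.normSq (X j r s - X j r s') := by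
      calc (An.card : ℝ) * (2 * ((m : ℝ) - 1) * P)
          = ∑ _r ∈ An, (2 * ((m : ℝ) - 1) * P) := by rw [Finset.sum_const, nsmul_eq_mul]
        _ ≤ ∑ r ∈ An, ∑ s, ∑ s', ∑ j, Complex.normSq (X j r s - X j r s') :=
            Finset.sum_le_sum g1
        _ ≤ _ := Finset.sum_le_sum_of_subset_of_nonneg (Finset.subset_univ _)
            (fun _ _ _ => Finset.sum_nonneg fun _ _ => Finset.sum_nonneg fun _ _ =>
              Finset.sum_nonneg fun _ _ => Complex.normSq_nonneg _)
    have g3 : ∑ r, ∑ s, ∑ s', ∑ j, Complex.normSq (X j r s - X j r s') =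
        ∑ s, ∑ s', ∑ j, ∑ r, Complex.normSq (X j r s - X j r s') := by
      rw [Finset.sum_comm]
      apply Finset.sum_congr rfl
      intro s _
      rw [Finset.sum_comm]
      apply Finset.sum_congr rfl
      intro s' _
      rw [Finset.sum_comm]
    have g4 : ∀ s s' : Fin m, ∑ j, ∑ r, Complex.normSq (X j r s - X j r s') ≤
        if s = s' then 0 else P * (2 * ℓ) := by
      intro s s'
      split_ifs with h
      · subst h
        simp
      · calc ∑ j, ∑ r, Complex.normSq (X j r s - X j r s') ≤ ∑ _j : J, (2 * (ℓ : ℝ)) :=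
              Finset.sum_le_sum fun j _ => h1 j s s' h
          _ = P * (2 * ℓ) := by
              rw [Finset.sum_const, nsmul_eq_mul, Finset.card_univ]
    have g5 : ∑ s, ∑ s', ∑ j, ∑ r, Complex.normSq (X j r s - X j r s') ≤
        m * ((m - 1) * (P * (2 * ℓ))) := by
      calc ∑ s, ∑ s', ∑ j, ∑ r, Complex.normSq (X j r s - X j r s')
          ≤ ∑ s : Fin m, ∑ s' : Fin m, if s = s' then 0 else P * (2 * ℓ) :=
            Finset.sum_le_sum fun s _ => Finset.sum_le_sum fun s' _ => g4 s s'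
        _ = ∑ _s : Fin m, ((m : ℝ) - 1) * (P * (2 * ℓ)) := by
            apply Finset.sum_congr rfl
            intro s _
            have e1 : ∀ s' : Fin m, (if s = s' then 0 else P * (2 * (ℓ : ℝ))) =
                P * (2 * ℓ) - if s = s' then P * (2 * ℓ) else 0 := by
              intro s'
              split_ifs <;> ring
            rw [Finset.sum_congr rfl (fun s' _ => e1 s'), Finset.sum_sub_distrib,
              Finset.sum_ite_eq, if_pos (Finset.mem_univ s), Finset.sum_const, nsmul_eq_mul,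
              Finset.card_univ, Fintype.card_fin]
            ring
        _ = m * ((m - 1) * (P * (2 * ℓ))) := by
            rw [Finset.sum_const, nsmul_eq_mul, Finset.card_univ, Fintype.card_fin]
    have g6 : (An.card : ℝ) * (2 * ((m : ℝ) - 1) * P) ≤ (m * ℓ) * (2 * ((m : ℝ) - 1) * P) := by
      refine g2.trans (g3.le.trans (g5.trans (le_of_eq ?_)))
      ring
    exact le_of_mul_le_mul_right g6 (by nlinarith)
  -- (2)
  have s2 : (m : ℝ) ^ 2 * Ac.card + An.card ≤ m * ℓ ^ 2 := by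
    have g1 : ∑ r, ∑ j, Complex.normSq (a j r) ≤ P * (m * ℓ ^ 2) := by
      rw [Finset.sum_comm]
      calc ∑ j, ∑ r, Complex.normSq (a j r) ≤ ∑ _j : J, ((m : ℝ) * ℓ ^ 2) :=
            Finset.sum_le_sum fun j _ => h2 j
        _ = P * (m * ℓ ^ 2) := by rw [Finset.sum_const, nsmul_eq_mul, Finset.card_univ]
    have g2 : (Ac.card : ℝ) * (m ^ 2 * P) ≤ ∑ r ∈ Ac, ∑ j, Complex.normSq (a j r) := by
      rw [← nsmul_eq_mul, ← Finset.sum_const]
      apply Finset.sum_le_sum
      intro r hr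
      have hr' := (Finset.mem_filter.1 hr).2
      exact h7 r hr'.1 hr'.2
    have g3 : (An.card : ℝ) * P ≤ ∑ r ∈ An, ∑ j, Complex.normSq (a j r) := by
      rw [← nsmul_eq_mul, ← Finset.sum_const]
      apply Finset.sum_le_sum
      intro r hr
      exact h6 r (Finset.mem_filter.1 hr).2.1
    have g4 : ∑ r ∈ Ac, ∑ j, Complex.normSq (a j r) + ∑ r ∈ An, ∑ j, Complex.normSq (a j r) ≤
        ∑ r, ∑ j, Complex.normSq (a j r) := by
      rw [← Finset.sum_union]
      · exact Finset.sum_le_sum_of_subset_of_nonneg (Finset.subset_univ _)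
          (fun _ _ _ => Finset.sum_nonneg fun _ _ => Complex.normSq_nonneg _)
      · rw [Finset.disjoint_left]
        intro r hr hr'
        exact (Finset.mem_filter.1 hr').2.2 (Finset.mem_filter.1 hr).2.2
    have g5 : ((m : ℝ) ^ 2 * Ac.card + An.card) * P ≤ (m * ℓ ^ 2) * P := by nlinarith
    exact le_of_mul_le_mul_right g5 hP
  have s3 : (m : ℝ) * (Ac.card + An.card) ≤ ℓ ^ 2 + (m ^ 2 - 1) * ℓ := by
    have e1 : (m : ℝ) * (m * (Ac.card + An.card)) ≤ m * (ℓ ^ 2 + (m ^ 2 - 1) * ℓ) := by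
      have : ((m : ℝ) ^ 2 - 1) * An.card ≤ (m ^ 2 - 1) * (m * ℓ) :=
        mul_le_mul_of_nonneg_left s1 (by nlinarith)
      nlinarith
    exact le_of_mul_le_mul_left e1 (by linarith)
  -- the elements of `Z`
  have hz : ∀ c : ℝ, ∀ w : J → ρ → ℂ, (∀ j, ∑ r, Complex.normSq (w j r) ≤ c) →
      (∀ r ∈ Z, (ℓ : ℝ) ^ 2 * P ≤ ∑ j, Complex.normSq (w j r)) → (Z.card : ℝ) * ℓ ^ 2 ≤ c := by
    intro c w hw1 hw2
    have g1 : ∑ r, ∑ j, Complex.normSq (w j r) ≤ P * c := by
      rw [Finset.sum_comm]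
      calc ∑ j, ∑ r, Complex.normSq (w j r) ≤ ∑ _j : J, c :=
            Finset.sum_le_sum fun j _ => hw1 j
        _ = P * c := by rw [Finset.sum_const, nsmul_eq_mul, Finset.card_univ]
    have g2 : (Z.card : ℝ) * (ℓ ^ 2 * P) ≤ ∑ r ∈ Z, ∑ j, Complex.normSq (w j r) := by
      rw [← nsmul_eq_mul, ← Finset.sum_const]
      exact Finset.sum_le_sum hw2
    have g4 : ∑ r ∈ Z, ∑ j, Complex.normSq (w j r) ≤ ∑ r, ∑ j, Complex.normSq (w j r) :=
      Finset.sum_le_sum_of_subset_of_nonneg (Finset.subset_univ _)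
          (fun _ _ _ => Finset.sum_nonneg fun _ _ => Complex.normSq_nonneg _)
    have g5 : ((Z.card : ℝ) * ℓ ^ 2) * P ≤ c * P := by nlinarith
    exact le_of_mul_le_mul_right g5 hP
  by_cases hml : m = ℓ - 1
  · -- (3)
    have hml' : (m : ℝ) = ℓ - 1 := by
      rw [hml, Nat.cast_sub (by omega)]
      simp
    have g1 : (Ac.card : ℝ) + An.card ≤ ℓ ^ 2 := by
      have : (m : ℝ) * (Ac.card + An.card) ≤ m * ℓ ^ 2 := by
        refine s3.trans (le_of_eq ?_)
        rw [hml']
        ring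
      exact le_of_mul_le_mul_left this (by linarith)
    have g2 : (Z.card : ℝ) * ℓ ^ 2 ≤ ℓ ^ 2 := by
      refine hz (ℓ ^ 2) (fun j r => a j r - v j r) (h4 hml) ?_
      intro r hr
      have hr' := (Finset.mem_filter.1 hr).2
      have e1 : ∑ j, Complex.normSq (a j r - v j r) = ∑ j, Complex.normSq (v j r) := by
        apply Finset.sum_congr rfl
        intro j _
        rw [hr' j, zero_sub, Complex.normSq_neg]
      rw [e1]
      exact h8 r hr'
    have g3 : (Z.card : ℝ) ≤ 1 := by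
      have : (Z.card : ℝ) * ℓ ^ 2 ≤ 1 * ℓ ^ 2 := by rw [one_mul]; exact g2
      exact le_of_mul_le_mul_right this (by positivity)
    have g4 : (Z.card + Ac.card + An.card : ℝ) ≤ ℓ ^ 2 + 1 := by linarith
    have g5 : Z.card + Ac.card + An.card ≤ ℓ ^ 2 + 1 := by exact_mod_cast g4
    omega
  · -- (4)
    obtain ⟨n, hn⟩ := hdvd
    have hn2 : 2 ≤ n := by
      by_contra hcon
      have : n = 0 ∨ n = 1 := by omega
      rcases this with rfl | rfl
      · omega
      · apply hml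
        omega
    have h2m : 2 * m ≤ ℓ - 1 := by
      rw [hn]
      nlinarith
    have h2m' : 2 * (m : ℝ) ≤ ℓ - 1 := by
      have : 2 * m + 1 ≤ ℓ := by omega
      have : (2 : ℝ) * m + 1 ≤ ℓ := by exact_mod_cast this
      linarith
    have g0 : ((m : ℝ) - 2) * (2 * m - (ℓ - 1)) ≤ 0 :=
      mul_nonpos_of_nonneg_of_nonpos (by linarith) (by linarith)
    have g1 : 2 * ((Ac.card : ℝ) + An.card) ≤ ℓ * (ℓ + 3) := by
      have : (m : ℝ) * (2 * (Ac.card + An.card)) ≤ m * (ℓ * (ℓ + 3)) := by nlinarith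
      exact le_of_mul_le_mul_left this (by linarith)
    have g2 : (Z.card : ℝ) * ℓ ^ 2 ≤ ℓ ^ 3 :=
      hz (ℓ ^ 3) v h3 (fun r hr => h8 r (Finset.mem_filter.1 hr).2)
    have g3 : (Z.card : ℝ) ≤ ℓ := by
      have : (Z.card : ℝ) * ℓ ^ 2 ≤ ℓ * ℓ ^ 2 := by
        refine g2.trans (le_of_eq ?_)
        ring
      exact le_of_mul_le_mul_right this (by positivity)
    have hl5 : (5 : ℝ) ≤ ℓ := by linarith
    have g4 : (Z.card + Ac.card + An.card : ℝ) ≤ ℓ ^ 2 + 1 := by nlinarith
    have g5 : Z.card + Ac.card + An.card ≤ ℓ ^ 2 + 1 := by exact_mod_cast g4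
    omega

end Pool.Agent.PP.T12.H91
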